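import Mathlib

/-!
# Polarized motives
-/

set_option autoImplicit false

open CategoryTheory

universe u v

namespace Pool.Agent.L0h14.SD

variable {𝒱 : Type u} [Category.{v} 𝒱] [Preadditive 𝒱] [Linear ℚ 𝒱]

/-- An ideal of the category `𝒱` of Chow motives: the numerically trivial morphisms. -/
structure Numerical (𝒱 : Type u) [Category.{v} 𝒱] [Preadditive 𝒱] [Linear ℚ 𝒱] where
  N : ∀ A B : 𝒱, Submodule ℚ (A ⟶ B)
  left : ∀ {A B C : 𝒱} (f : A ⟶ B) (g : B ⟶ C), g ∈ N B C → f ≫ g ∈ N A C
  right : ∀ {A B C : 𝒱} (f : A ⟶ B) (g : B ⟶ C), f ∈ N A B → f ≫ g ∈ N A C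
  /-- The endomorphism algebras modulo numerical equivalence are finite-dimensional. -/
  finite : ∀ A : 𝒱, FiniteDimensional ℚ ((A ⟶ A) ⧸ N A A)

/-- A polarization modulo numerical equivalence of the motive `H = h^n(X)`. `H'` is the motive `H^∨(-n)`, `dual` is
the transposition of endomorphisms, and `lam : H ⟶ H'` is invertible modulo numerical equivalence, for example
given by a power of an ample class (or by the Lefschetz involution). It is symmetric or alternating, so that
`x ↦ lam (dual x) mu` is an involution modulo numerical equivalence, and this involution is positive: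
`x^* x` is numerically trivial only if `x` is. -/
structure Polarization (T : Numerical 𝒱) (H H' : 𝒱) where
  dual : (H ⟶ H) ≃+ (H' ⟶ H')
  dual_comp : ∀ x y : H ⟶ H, dual (x ≫ y) = dual y ≫ dual x
  dual_mem : ∀ x : H ⟶ H, dual x ∈ T.N H' H' ↔ x ∈ T.N H H
  lam : H ⟶ H'
  mu : H' ⟶ H
  lam_mu : lam ≫ mu - 𝟙 H ∈ T.N H H
  mu_lam : mu ≫ lam - 𝟙 H' ∈ T.N H' H'
  involutive : ∀ x : H ⟶ H, lam ≫ dual (lam ≫ dual x ≫ mu) ≫ mu - x ∈ T.N H H
  positive : ∀ x : H ⟶ H, (lam ≫ dual x ≫ mu) ≫ x ∈ T.N H H → x ∈ T.N H H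

/-- The numerically trivial endomorphisms of the direct summand `M = (H, p)` are nilpotent, for example because the
Chow motive `M` is finite-dimensional in the sense of Kimura. -/
def Nilpotent (T : Numerical 𝒱) {H : 𝒱} (p : H ⟶ H) : Prop :=
  ∀ x : H ⟶ H, p ≫ x = x → x ≫ p = x → x ∈ T.N H H → IsNilpotent (show End H from x)

end Pool.Agent.L0h14.SD
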