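import Pool.Agent.L0h14.SD.Defs

/-!
# Self-duality of summands
-/

set_option autoImplicit false

open CategoryTheory Module

universe u v

namespace Pool.Agent.L0h14.SD

variable {𝒱 : Type u} [Category.{v} 𝒱] [Preadditive 𝒱] [Linear ℚ 𝒱] {T : Numerical 𝒱} {H H' : 𝒱}

/-- congruence -/
def Cg (T : Numerical 𝒱) {A B : 𝒱} (f g : A ⟶ B) : Prop := f - g ∈ T.N A B

theorem Cg.refl {A B : 𝒱} (f : A ⟶ B) : Cg T f f := by
  unfold Cg
  rw [sub_self]
  exact zero_mem _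

theorem Cg.symm {A B : 𝒱} {f g : A ⟶ B} (h : Cg T f g) : Cg T g f := by
  unfold Cg at *
  rw [← neg_sub]
  exact neg_mem h

theorem Cg.trans {A B : 𝒱} {f g k : A ⟶ B} (h : Cg T f g) (h' : Cg T g k) : Cg T f k := by
  unfold Cg at *
  rw [← sub_add_sub_cancel f g k]
  exact add_mem h h'

theorem Cg.left {A B C : 𝒱} (k : A ⟶ B) {f g : B ⟶ C} (h : Cg T f g) : Cg T (k ≫ f) (k ≫ g) := by
  unfold Cg at *
  rw [← Preadditive.comp_sub]
  exact T.left k _ h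

theorem Cg.right {A B C : 𝒱} {f g : A ⟶ B} (h : Cg T f g) (k : B ⟶ C) : Cg T (f ≫ k) (g ≫ k) := by
  unfold Cg at *
  rw [← Preadditive.sub_comp]
  exact T.right _ k h

theorem Cg.mem {A B : 𝒱} {f g : A ⟶ B} (h : Cg T f g) (hg : g ∈ T.N A B) : f ∈ T.N A B := by
  unfold Cg at h
  rw [← sub_add_cancel f g]
  exact add_mem h hg

/-- the involution -/
def st (P : Polarization T H H') (x : H ⟶ H) : H ⟶ H := P.lam ≫ P.dual x ≫ P.mu

theorem st_comp (P : Polarization T H H') (x y : H ⟶ H) : Cg T (st P (x ≫ y)) (st P y ≫ st P x) := by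
  have h : st P y ≫ st P x = P.lam ≫ P.dual y ≫ (P.mu ≫ P.lam) ≫ P.dual x ≫ P.mu := by
    simp only [st, Category.assoc]
  have h' : st P (x ≫ y) = P.lam ≫ P.dual y ≫ 𝟙 H' ≫ P.dual x ≫ P.mu := by
    simp only [st, P.dual_comp, Category.assoc, Category.id_comp]
  rw [h, h']
  have : Cg T (P.mu ≫ P.lam) (𝟙 H') := P.mu_lam
  exact ((this.symm.right _).left _).left _

theorem st_st (P : Polarization T H H') (x : H ⟶ H) : Cg T (st P (st P x)) x := P.involutive x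

theorem st_cg (P : Polarization T H H') {x y : H ⟶ H} (h : Cg T x y) : Cg T (st P x) (st P y) := by
  have h1 : Cg T (P.dual x) (P.dual y) := by
    unfold Cg
    rw [← map_sub]
    exact (P.dual_mem _).mpr h
  exact (h1.right _).left _

/-- The comparison of the right ideals of `p` and of `q`. -/
theorem exists_inverse (P : Polarization T H H') {p : H ⟶ H} (hp : p ≫ p = p) :
    ∃ x : H ⟶ H, Cg T (st P p ≫ p ≫ x) (st P p) := by
  haveI := T.finite H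
  let q := st P p
  have hq : Cg T (q ≫ q) q := by
    have := st_comp P p p
    rw [hp] at this
    exact this.symm
  have i1 : ∀ x : H ⟶ H, q ≫ p ≫ x ∈ T.N H H → p ≫ x ∈ T.N H H := by
    intro x hx
    apply P.positive
    have h1 : Cg T (st P (p ≫ x) ≫ p ≫ x) ((st P x ≫ q) ≫ p ≫ x) := (st_comp P p x).right _
    refine h1.mem ?_
    rw [Category.assoc]
    exact T.left _ _ hx
  have i2 : ∀ x : H ⟶ H, p ≫ q ≫ x ∈ T.N H H → q ≫ x ∈ T.N H H := by
    intro x hx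
    apply P.positive
    have h1 : Cg T (st P (q ≫ x) ≫ q ≫ x) ((st P x ≫ st P q) ≫ q ≫ x) := (st_comp P q x).right _
    have h2 : Cg T ((st P x ≫ st P q) ≫ q ≫ x) ((st P x ≫ p) ≫ q ≫ x) := ((st_st P p).left _).right _
    refine (h1.trans h2).mem ?_
    rw [Category.assoc]
    exact T.left _ _ hx
  let L : ∀ a : H ⟶ H, (H ⟶ H) →ₗ[ℚ] (H ⟶ H) := fun a => Linear.leftComp ℚ H a
  let Q : ∀ a : H ⟶ H, ((H ⟶ H) ⧸ T.N H H) →ₗ[ℚ] ((H ⟶ H) ⧸ T.N H H) := fun a =>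
    Submodule.mapQ _ _ (L a) (fun x hx => T.left a x hx)
  let A := LinearMap.range (Q p)
  let B := LinearMap.range (Q q)
  have hA : ∀ z ∈ A, ∃ x : H ⟶ H, z = Submodule.Quotient.mk (p ≫ x) := by
    rintro _ ⟨y, rfl⟩
    obtain ⟨x, rfl⟩ := Submodule.Quotient.mk_surjective _ y
    exact ⟨x, rfl⟩
  have hB : ∀ z ∈ B, ∃ x : H ⟶ H, z = Submodule.Quotient.mk (q ≫ x) := by
    rintro _ ⟨y, rfl⟩
    obtain ⟨x, rfl⟩ := Submodule.Quotient.mk_surjective _ y
    exact ⟨x, rfl⟩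
  have e1 : finrank ℚ (A.map (Q q)) = finrank ℚ A := by
    have hi : Function.Injective ((Q q).domRestrict A) := by
      rw [injective_iff_map_eq_zero]
      rintro ⟨z, hz⟩ h
      obtain ⟨x, rfl⟩ := hA z hz
      have h' : (Submodule.Quotient.mk (q ≫ p ≫ x) : (H ⟶ H) ⧸ T.N H H) = 0 := h
      rw [Submodule.Quotient.mk_eq_zero] at h'
      refine Subtype.ext ?_
      show (Submodule.Quotient.mk (p ≫ x) : (H ⟶ H) ⧸ T.N H H) = 0
      rw [Submodule.Quotient.mk_eq_zero]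
      exact i1 x h'
    have := LinearMap.finrank_range_of_inj hi
    rwa [LinearMap.range_domRestrict] at this
  have e2 : finrank ℚ (B.map (Q p)) = finrank ℚ B := by
    have hi : Function.Injective ((Q p).domRestrict B) := by
      rw [injective_iff_map_eq_zero]
      rintro ⟨z, hz⟩ h
      obtain ⟨x, rfl⟩ := hB z hz
      have h' : (Submodule.Quotient.mk (p ≫ q ≫ x) : (H ⟶ H) ⧸ T.N H H) = 0 := h
      rw [Submodule.Quotient.mk_eq_zero] at h'
      refine Subtype.ext ?_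
      show (Submodule.Quotient.mk (q ≫ x) : (H ⟶ H) ⧸ T.N H H) = 0
      rw [Submodule.Quotient.mk_eq_zero]
      exact i2 x h'
    have := LinearMap.finrank_range_of_inj hi
    rwa [LinearMap.range_domRestrict] at this
  have l1 : A.map (Q q) ≤ B := by
    rintro _ ⟨z, _, rfl⟩
    exact ⟨z, rfl⟩
  have l2 : B.map (Q p) ≤ A := by
    rintro _ ⟨z, _, rfl⟩
    exact ⟨z, rfl⟩
  have f2 := Submodule.finrank_mono l2
  have e : A.map (Q q) = B := Submodule.eq_of_le_of_finrank_le l1 (by omega)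
  have hq' : (Submodule.Quotient.mk (q ≫ 𝟙 H) : (H ⟶ H) ⧸ T.N H H) ∈ B := ⟨Submodule.Quotient.mk (𝟙 H), rfl⟩
  rw [← e] at hq'
  obtain ⟨z, hz, hz'⟩ := hq'
  obtain ⟨x, rfl⟩ := hA z hz
  refine ⟨x, ?_⟩
  have h' : (Submodule.Quotient.mk (q ≫ p ≫ x) : (H ⟶ H) ⧸ T.N H H) = Submodule.Quotient.mk (q ≫ 𝟙 H) := hz'
  rw [Submodule.Quotient.eq, Category.comp_id] at h'
  exact h'

/-- Inverses in corners. -/
theorem corner (T : Numerical 𝒱) {H : 𝒱} {p : H ⟶ H} (hp : p ≫ p = p) (hn : Nilpotent T p) {s : H ⟶ H} (h1 : p ≫ s = s)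
    (h2 : s ≫ p = s) (h : Cg T s p) : ∃ t : H ⟶ H, s ≫ t = p ∧ t ≫ s = p ∧ p ≫ t = t ∧ t ≫ p = t := by
  have hnil : IsNilpotent (show End H from s - p) := hn (s - p) (by rw [Preadditive.comp_sub, h1, hp])
    (by rw [Preadditive.sub_comp, h2, hp]) h
  obtain ⟨w, hw⟩ := (hnil.isUnit_one_add : IsUnit (1 + (show End H from s - p)))
  obtain ⟨u, hu⟩ : ∃ u : H ⟶ H, u = (w : End H) := ⟨_, rfl⟩
  obtain ⟨u', hu'⟩ : ∃ u' : H ⟶ H, u' = ((w⁻¹ : (End H)ˣ) : End H) := ⟨_, rfl⟩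
  have a1 : u ≫ u' = 𝟙 H := by
    rw [hu, hu']
    exact w.inv_mul
  have a2 : u' ≫ u = 𝟙 H := by
    rw [hu, hu']
    exact w.mul_inv
  have hw' : u = 𝟙 H + (s - p) := by
    rw [hu]
    exact hw
  have b1 : p ≫ u = s := by
    rw [hw', Preadditive.comp_add, Preadditive.comp_sub, Category.comp_id, h1, hp]
    abel
  have b2 : u ≫ p = s := by
    rw [hw', Preadditive.add_comp, Preadditive.sub_comp, Category.id_comp, h2, hp]
    abel
  have c1 : s ≫ u' = p := by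
    rw [← b1, Category.assoc, a1, Category.comp_id]
  have c2 : u' ≫ s = p := by
    rw [← b2, ← Category.assoc, a2, Category.id_comp]
  refine ⟨p ≫ u' ≫ p, ?_, ?_, ?_, ?_⟩
  · rw [← Category.assoc, h2, ← Category.assoc, c1, hp]
  · rw [Category.assoc, Category.assoc, h1, c2, hp]
  · rw [← Category.assoc, hp]
  · rw [Category.assoc, Category.assoc, hp]

/-- The restriction of the polarization is an isomorphism. -/
theorem self_dual (P : Polarization T H H') {p : H ⟶ H} (hp : p ≫ p = p) (hn : Nilpotent T p) :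
    ∃ a : H ⟶ H', p ≫ a = a ∧ a ≫ P.dual p = a ∧ a ≫ (P.dual p ≫ P.mu ≫ p) = p ∧
      (P.dual p ≫ P.mu ≫ p) ≫ a = P.dual p := by
  obtain ⟨x, hx⟩ := exists_inverse P hp
  have hp' : P.dual p ≫ P.dual p = P.dual p := by rw [← P.dual_comp, hp]
  have hn' : Nilpotent T (P.dual p) := by
    intro y h1 h2 hy
    obtain ⟨z, rfl⟩ := P.dual.surjective y
    have h1' : z ≫ p = z := P.dual.injective (by rw [P.dual_comp, h1])
    have h2' : p ≫ z = z := P.dual.injective (by rw [P.dual_comp, h2])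
    obtain ⟨m, hm⟩ := hn z h2' h1' ((P.dual_mem z).mp hy)
    have key : ∀ m : ℕ, ((show End H' from P.dual z) ^ (m + 1) : End H') = P.dual ((show End H from z) ^ (m + 1) : End H) := by
      intro m
      induction m with
      | zero => simp
      | succ m ih =>
        rw [pow_succ, ih]
        show P.dual z ≫ P.dual ((show End H from z) ^ (m + 1) : End H) = _
        rw [← P.dual_comp]
        congr 1
        show (show End H from z) * (show End H from z) ^ (m + 1) = _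
        rw [← pow_succ']
    refine ⟨m + 1, ?_⟩
    rw [key m, pow_succ, hm, zero_mul]
    exact map_zero P.dual
  let q := st P p
  have hq : Cg T (q ≫ q) q := by
    have := st_comp P p p
    rw [hp] at this
    exact this.symm
  let a₀ : H ⟶ H' := p ≫ x ≫ P.lam ≫ P.dual p
  let b₀ : H' ⟶ H := P.dual p ≫ P.mu ≫ p
  have i1 : ∀ x : H ⟶ H, q ≫ p ≫ x ∈ T.N H H → p ≫ x ∈ T.N H H := by
    intro x hx
    apply P.positive
    have h1 : Cg T (st P (p ≫ x) ≫ p ≫ x) ((st P x ≫ q) ≫ p ≫ x) := (st_comp P p x).right _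
    refine h1.mem ?_
    rw [Category.assoc]
    exact T.left _ _ hx
  have hpaq : a₀ ≫ b₀ = p ≫ x ≫ q ≫ p := by
    show (p ≫ x ≫ P.lam ≫ P.dual p) ≫ P.dual p ≫ P.mu ≫ p = p ≫ x ≫ (P.lam ≫ P.dual p ≫ P.mu) ≫ p
    simp only [Category.assoc]
    rw [reassoc_of% hp']
  have c1 : Cg T (a₀ ≫ b₀) p := by
    rw [hpaq]
    have h1 : q ≫ p ≫ (x ≫ q ≫ p - 𝟙 H) ∈ T.N H H := by
      have e : q ≫ p ≫ (x ≫ q ≫ p - 𝟙 H) = (q ≫ p ≫ x) ≫ q ≫ p - q ≫ p := by
        simp only [Preadditive.comp_sub, Category.assoc, Category.comp_id]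
      rw [e]
      have h2 : Cg T ((q ≫ p ≫ x) ≫ q ≫ p) (q ≫ q ≫ p) := hx.right _
      have h3 : Cg T (q ≫ q ≫ p) (q ≫ p) := by
        rw [← Category.assoc]
        exact hq.right _
      exact h2.trans h3
    have := i1 _ h1
    rw [Preadditive.comp_sub, Category.comp_id] at this
    exact this
  have c2 : Cg T (b₀ ≫ a₀) (P.dual p) := by
    have h1 : Cg T (P.lam ≫ (b₀ ≫ a₀) ≫ P.mu) q := by
      have e : P.lam ≫ (b₀ ≫ a₀) ≫ P.mu = (q ≫ p ≫ x) ≫ q := by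
        show P.lam ≫ ((P.dual p ≫ P.mu ≫ p) ≫ p ≫ x ≫ P.lam ≫ P.dual p) ≫ P.mu =
          ((P.lam ≫ P.dual p ≫ P.mu) ≫ p ≫ x) ≫ P.lam ≫ P.dual p ≫ P.mu
        simp only [Category.assoc]
        rw [reassoc_of% hp]
      rw [e]
      exact (hx.right _).trans hq
    have h2 : Cg T (P.mu ≫ P.lam) (𝟙 H') := P.mu_lam
    have h3 : ∀ y : H' ⟶ H', Cg T y (P.mu ≫ (P.lam ≫ y ≫ P.mu) ≫ P.lam) := by
      intro y
      have e : P.mu ≫ (P.lam ≫ y ≫ P.mu) ≫ P.lam = (P.mu ≫ P.lam) ≫ y ≫ (P.mu ≫ P.lam) := by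
        simp only [Category.assoc]
      rw [e]
      have g1 : Cg T ((P.mu ≫ P.lam) ≫ y ≫ (P.mu ≫ P.lam)) (𝟙 H' ≫ y ≫ (P.mu ≫ P.lam)) := h2.right _
      have g2 : Cg T (𝟙 H' ≫ y ≫ (P.mu ≫ P.lam)) (𝟙 H' ≫ y ≫ 𝟙 H') := (h2.left _).left _
      have := (g1.trans g2).symm
      rwa [Category.id_comp, Category.comp_id] at this
    have h4 : Cg T (P.mu ≫ (P.lam ≫ (b₀ ≫ a₀) ≫ P.mu) ≫ P.lam) (P.mu ≫ q ≫ P.lam) := (h1.right _).left _
    exact ((h3 _).trans h4).trans (h3 (P.dual p)).symm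
  have pa : p ≫ a₀ = a₀ := by
    show p ≫ p ≫ x ≫ P.lam ≫ P.dual p = _
    rw [reassoc_of% hp]
  have ap : a₀ ≫ P.dual p = a₀ := by
    show (p ≫ x ≫ P.lam ≫ P.dual p) ≫ P.dual p = _
    simp only [Category.assoc]
    rw [hp']
  have pb : P.dual p ≫ b₀ = b₀ := by
    show P.dual p ≫ P.dual p ≫ P.mu ≫ p = _
    rw [reassoc_of% hp']
  have bp : b₀ ≫ p = b₀ := by
    show (P.dual p ≫ P.mu ≫ p) ≫ p = _
    simp only [Category.assoc]
    rw [hp]
  obtain ⟨t, t1, t2, t3, t4⟩ := corner T hp hn (s := a₀ ≫ b₀) (by rw [← Category.assoc, pa])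
    (by rw [Category.assoc, bp]) c1
  obtain ⟨t', t1', t2', t3', t4'⟩ := corner T hp' hn' (s := b₀ ≫ a₀) (by rw [← Category.assoc, pb])
    (by rw [Category.assoc, ap]) c2
  have r1 : (t ≫ a₀) ≫ b₀ = p := by rw [Category.assoc, t2]
  have r2 : b₀ ≫ (a₀ ≫ t') = P.dual p := by rw [← Category.assoc, t1']
  have r3 : t ≫ a₀ = a₀ ≫ t' := by
    calc t ≫ a₀ = (t ≫ a₀) ≫ P.dual p := by rw [Category.assoc, ap]
      _ = (t ≫ a₀) ≫ b₀ ≫ (a₀ ≫ t') := by rw [r2]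
      _ = ((t ≫ a₀) ≫ b₀) ≫ a₀ ≫ t' := by simp only [Category.assoc]
      _ = p ≫ a₀ ≫ t' := by rw [r1]
      _ = a₀ ≫ t' := by rw [← Category.assoc, pa]
  refine ⟨t ≫ a₀, ?_, ?_, r1, ?_⟩
  · rw [← Category.assoc, t3]
  · rw [Category.assoc, ap]
  · show b₀ ≫ t ≫ a₀ = P.dual p
    rw [r3, r2]

end Pool.Agent.L0h14.SD
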